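import Pool.Agent.Work.MP_dcf6a6_tv.Interface

/-! # Block FS (helper68) -/

namespace Pool.TVar.helper68

open Pool.TVar MvPolynomial

/-- choice of an index in each block -/
theorem sel {J K I : Type} [DecidableEq J] [DecidableEq I] (ja : J → I)
    (hs : Function.Surjective ja) (v : J ⊕ K) :
    ∃ s : I → J, (∀ a, ja (s a) = a) ∧ ∀ j, v = Sum.inl j → s (ja j) = j := by
  choose s0 hs0 using hs
  rcases v with j0 | k0
  · refine ⟨Function.update s0 (ja j0) j0, ?_, ?_⟩
    · intro a
      by_cases h : a = ja j0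
      · subst h
        rw [Function.update_self]
      · rw [Function.update_of_ne h]
        exact hs0 a
    · intro j hj
      rw [Sum.inl.inj hj, Function.update_self]
  · exact ⟨s0, hs0, fun j hj => by cases hj⟩

theorem fs_aux {J K I B : Type} [Fintype J] [Fintype K] [Fintype B] [DecidableEq J]
    [DecidableEq K] [DecidableEq I] {D : Data J K I B} {A : Type} [CommRing A] [Algebra ℂ A]
    {𝒜 : ℕ → Submodule ℂ A} [GradedAlgebra 𝒜] (pr : D.Pres A 𝒜) (v : J ⊕ K) (h : A)
    (hh : h = ∏ v' ∈ Finset.univ.erase v, pr.π (X v')) :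
    Algebra.FormallySmooth ℂ (Localization.Away h) := by
  refine .of_comp_surjective fun Q _ _ 𝔞 h𝔞 f ↦ ?_
  have hnil : IsNilpotent 𝔞 := ⟨2, h𝔞⟩
  obtain ⟨s, hs1, hs2⟩ := sel D.ja D.ja_surj v
  -- the images of the variables in `Q / 𝔞`
  set F : J ⊕ K → Q ⧸ 𝔞 := fun v' => f (algebraMap A (Localization.Away h) (pr.π (X v'))) with hF
  have hFu : ∀ v', v' ≠ v → IsUnit (F v') := by
    intro v' hv'
    have h1 : pr.π (X v') ∣ h := by
      rw [hh]
      exact Finset.dvd_prod_of_mem (fun v' => pr.π (X v')) (Finset.mem_erase.2 ⟨hv', Finset.mem_univ _⟩)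
    have h2 : IsUnit (algebraMap A (Localization.Away h) h) :=
      IsLocalization.map_units (Localization.Away h) (⟨h, Submonoid.mem_powers h⟩ : Submonoid.powers h)
    exact (isUnit_of_dvd_unit (map_dvd (algebraMap A (Localization.Away h)) h1) h2).map f
  have hFa : ∀ p : MvPolynomial (J ⊕ K) ℂ,
      f (algebraMap A (Localization.Away h) (pr.π p)) = aeval F p := by
    intro p
    have h1 : (f.comp (Algebra.algHom ℂ A (Localization.Away h))).comp pr.π = aeval F := by
      apply MvPolynomial.algHom_ext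
      intro i
      rw [aeval_X]
      rfl
    exact AlgHom.congr_fun h1 p
  have hrel : ∀ a, aeval F (D.rel a) = 0 := by
    intro a
    rw [← hFa]
    have h1 : pr.π (D.rel a) = 0 := by
      rw [← RingHom.mem_ker, pr.ker]
      exact Ideal.subset_span ⟨a, rfl⟩
    rw [h1, map_zero, map_zero]
  -- lifts
  have hx0 : ∀ v', ∃ x : Q, Ideal.Quotient.mk 𝔞 x = F v' := fun v' => Ideal.Quotient.mk_surjective _
  choose x hx using hx0
  have hxu : ∀ v', v' ≠ v → IsUnit (x v') := by
    intro v' hv'
    rw [← hnil.isUnit_quotient_mk_iff, hx]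
    exact hFu v' hv'
  set R : I → Q := fun a => ∏ b with D.ba b = a, (aeval (fun k => x (Sum.inr k)) (D.P b)) ^ D.m b
    with hR
  have hprod : ∀ a, IsUnit (∏ j ∈ (Finset.univ.filter fun j => D.ja j = a).erase (s a),
      x (Sum.inl j)) := by
    intro a
    rw [IsUnit.prod_iff]
    intro j hj
    apply hxu
    intro hv
    rw [Finset.mem_erase, Finset.mem_filter] at hj
    have := hs2 j hv.symm
    rw [hj.2.2] at this
    exact hj.1 this.symm
  choose w hw using fun a => (hprod a).exists_right_inv
  obtain ⟨y, hy⟩ : ∃ y : J ⊕ K → Q, y = Sum.elim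
      (fun j => if j = s (D.ja j) then R (D.ja j) * w (D.ja j) else x (Sum.inl j))
      (fun k => x (Sum.inr k)) := ⟨_, rfl⟩
  have hy1 : ∀ k, y (Sum.inr k) = x (Sum.inr k) := fun k => by rw [hy]; rfl
  have hy2 : ∀ a, y (Sum.inl (s a)) = R a * w a := by
    intro a
    rw [hy]
    simp only [Sum.elim_inl, hs1, if_true]
  have hy3 : ∀ a, ∀ j ∈ (Finset.univ.filter fun j => D.ja j = a).erase (s a),
      y (Sum.inl j) = x (Sum.inl j) := by
    intro a j hj
    rw [Finset.mem_erase, Finset.mem_filter] at hj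
    rw [hy]
    simp only [Sum.elim_inl]
    rw [if_neg]
    rw [hj.2.2]
    exact hj.1
  have hmem : ∀ a, s a ∈ Finset.univ.filter fun j => D.ja j = a := fun a =>
    Finset.mem_filter.2 ⟨Finset.mem_univ _, hs1 a⟩
  have hyrel : ∀ a, aeval y (D.rel a) = 0 := by
    intro a
    rw [Data.rel, map_sub, map_prod, map_prod, ← Finset.mul_prod_erase _ _ (hmem a)]
    simp only [aeval_X, map_pow, aeval_rename]
    rw [hy2, Finset.prod_congr rfl (hy3 a)]
    have h1 : (fun b => (aeval (y ∘ Sum.inr) (D.P b)) ^ D.m b) =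
        fun b => (aeval (fun k => x (Sum.inr k)) (D.P b)) ^ D.m b := by
      funext b
      have : y ∘ Sum.inr = fun k => x (Sum.inr k) := funext fun k => hy1 k
      rw [this]
    rw [h1]
    have h2 := hw a
    rw [mul_assoc, mul_comm (w a), h2, mul_one]
    exact sub_self _
  -- the images of `y`
  have hyF : ∀ v', Ideal.Quotient.mk 𝔞 (y v') = F v' := by
    have hin : ∀ k, Ideal.Quotient.mk 𝔞 (y (Sum.inr k)) = F (Sum.inr k) := fun k => by
      rw [hy1, hx]
    intro v'
    rcases v' with j | k
    · by_cases hj : j = s (D.ja j)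
      · set a := D.ja j with ha
        rw [hj]
        have h1 := hrel a
        rw [Data.rel, map_sub, map_prod, map_prod, ← Finset.mul_prod_erase _ _ (hmem a)] at h1
        simp only [aeval_X, map_pow, aeval_rename] at h1
        have h2 : IsUnit (∏ j ∈ (Finset.univ.filter fun j => D.ja j = a).erase (s a),
            F (Sum.inl j)) := by
          have := (hprod a).map (Ideal.Quotient.mk 𝔞)
          rw [map_prod] at this
          simpa only [hx] using this
        apply h2.mul_left_injective
        simp only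
        rw [sub_eq_zero.1 h1, hy2, map_mul]
        have h3 := congrArg (Ideal.Quotient.mk 𝔞) (hw a)
        rw [map_mul, map_one, map_prod] at h3
        simp only [hx] at h3
        rw [mul_assoc, mul_comm (Ideal.Quotient.mk 𝔞 (w a)), h3, mul_one, hR]
        simp only [map_prod, map_pow]
        refine Finset.prod_congr rfl fun b _ => ?_
        congr 1
        have h4 : ((Ideal.Quotient.mkₐ ℂ 𝔞).comp (aeval (fun k => x (Sum.inr k)))) =
            aeval (F ∘ Sum.inr) := by
          apply MvPolynomial.algHom_ext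
          intro k
          rw [AlgHom.comp_apply, aeval_X, aeval_X]
          exact hx _
        exact AlgHom.congr_fun h4 (D.P b)
      · rw [hy3 (D.ja j) j (Finset.mem_erase.2 ⟨hj, Finset.mem_filter.2 ⟨Finset.mem_univ _, rfl⟩⟩), hx]
    · exact hin k
  have hyu : ∀ v', v' ≠ v → IsUnit (y v') := by
    intro v' hv'
    rw [← hnil.isUnit_quotient_mk_iff, hyF]
    exact hFu v' hv'
  have hker : RingHom.ker pr.π.toRingHom ≤ RingHom.ker (aeval y : MvPolynomial (J ⊕ K) ℂ →ₐ[ℂ] Q).toRingHom := by
    have h1 : RingHom.ker pr.π.toRingHom = RingHom.ker pr.π := rfl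
    rw [h1, pr.ker, Ideal.span_le]
    rintro _ ⟨a, rfl⟩
    exact hyrel a
  set g1 : A →ₐ[ℂ] Q := AlgHom.liftOfSurjective pr.π pr.surj (aeval y) hker with hg1
  have hg1' : ∀ p, g1 (pr.π p) = aeval y p := fun p => AlgHom.liftOfSurjective_apply _ _ _ _ _
  have hg1u : ∀ z : Submonoid.powers h, IsUnit (g1 z) := by
    rintro ⟨_, n, rfl⟩
    simp only [map_pow]
    apply IsUnit.pow
    rw [hh, map_prod, IsUnit.prod_iff]
    intro v' hv'
    rw [hg1', aeval_X]
    exact hyu v' (Finset.ne_of_mem_erase hv')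
  refine ⟨IsLocalization.liftAlgHom (M := Submonoid.powers h) (f := g1) hg1u, ?_⟩
  apply IsLocalization.algHom_ext (Submonoid.powers h)
  apply AlgHom.ext
  intro z
  obtain ⟨p, rfl⟩ := pr.surj z
  simp only [AlgHom.comp_apply]
  have h5 : (IsLocalization.liftAlgHom (M := Submonoid.powers h) (S := Localization.Away h)
      (f := g1) hg1u) (algebraMap A (Localization.Away h) (pr.π p)) = g1 (pr.π p) := by
    rw [IsLocalization.coe_liftAlgHom, IsLocalization.lift_eq]
    rfl
  change Ideal.Quotient.mk 𝔞 ((IsLocalization.liftAlgHom (M := Submonoid.powers h)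
      (S := Localization.Away h) (f := g1) hg1u) (algebraMap A (Localization.Away h) (pr.π p))) =
    f (algebraMap A (Localization.Away h) (pr.π p))
  rw [h5, hg1', hFa]
  have h6 : ((Ideal.Quotient.mkₐ ℂ 𝔞).comp (aeval y)) = aeval F := by
    apply MvPolynomial.algHom_ext
    intro k
    rw [AlgHom.comp_apply, aeval_X, aeval_X]
    exact hyF _
  exact AlgHom.congr_fun h6 p

theorem stmt_FS : Stmt_FS := by
  intro J K I B _ _ _ _ _ _ D A _ _ 𝒜 _ pr v
  exact fs_aux pr v _ rfl

end Pool.TVar.helper68
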