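import Pool.Agent.Work.MP_dcf6a6_tv.Interface

/-! # Block SMO (helper68) -/

namespace Pool.TVar.helper68

open Pool.TVar MvPolynomial

/-- a retract of a formally smooth algebra of finite type is smooth -/
theorem smooth_of_retract {S T : Type} [CommRing S] [CommRing T] [Algebra ℂ S] [Algebra ℂ T]
    (i : T →ₐ[ℂ] S) (ρ : S →ₐ[ℂ] T) (hρ : ∀ z, ρ (i z) = z) (hS : Algebra.FormallySmooth ℂ S)
    (hF : Algebra.FiniteType ℂ S) : Algebra.Smooth ℂ T := by
  have hF' : Algebra.FiniteType ℂ T := hF.of_surjective ρ fun z => ⟨i z, hρ z⟩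
  have h1 : Algebra.FinitePresentation ℂ T := Algebra.FinitePresentation.of_finiteType.1 hF'
  have h2 : Algebra.FormallySmooth ℂ T := by
    refine .of_comp_surjective fun Q _ _ 𝔞 h𝔞 f ↦ ?_
    obtain ⟨g, hg⟩ := Algebra.FormallySmooth.comp_surjective ℂ S 𝔞 h𝔞 (f.comp ρ)
    refine ⟨g.comp i, ?_⟩
    rw [← AlgHom.comp_assoc, hg]
    apply AlgHom.ext
    intro z
    simp only [AlgHom.comp_apply, hρ]
  exact ⟨h2, h1⟩

theorem stmt_SMO (hRET : Stmt_RET) (hGCD : Stmt_GCD) (hFS : Stmt_FS) : Stmt_SMO := by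
  intro J K I B _ _ _ _ _ _ D A _ _ 𝒜 _ pr v
  have hfs := hFS D 𝒜 pr v
  obtain ⟨h, hh⟩ : ∃ h, h = ∏ v' ∈ Finset.univ.erase v, pr.π (X v') := ⟨_, rfl⟩
  rw [← hh] at hfs ⊢
  obtain ⟨e, e', he⟩ := hGCD (Finset.univ.erase v) D.wt (D.wellformed v)
  have hgr : ∀ f : J ⊕ K → ℕ, ∏ v' ∈ Finset.univ.erase v, pr.π (X v') ^ f v' ∈
      𝒜 (∑ v' ∈ Finset.univ.erase v, f v' * D.wt v') := by
    intro f
    apply SetLike.prod_mem_graded
    intro v' _
    have := SetLike.pow_mem_graded (f v') (pr.graded v')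
    rwa [smul_eq_mul] at this
  have hdv : ∀ f : J ⊕ K → ℕ, ∃ n : ℕ, ∏ v' ∈ Finset.univ.erase v, pr.π (X v') ^ f v' ∣ h ^ n := by
    intro f
    refine ⟨∑ v' ∈ Finset.univ.erase v, f v', ?_⟩
    rw [hh, ← Finset.prod_pow]
    apply Finset.prod_dvd_prod_of_dvd
    intro v' hv'
    exact pow_dvd_pow _ (Finset.single_le_sum (f := f) (fun _ _ => Nat.zero_le _) hv')
  have hhm : h ∈ 𝒜 (∑ v' ∈ Finset.univ.erase v, 1 * D.wt v') := by
    have := hgr fun _ => 1
    simp only [pow_one] at this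
    rwa [hh]
  have hα := hgr e
  rw [he] at hα
  obtain ⟨ρ, hρ1, hρ2⟩ := hRET 𝒜 h _ _ _ _ hhm hα (hgr e') (hdv e) (hdv e')
  let : Algebra ℂ (HomogeneousLocalization.Away 𝒜 h) := (strAway 𝒜 h).toAlgebra
  have hcm : ∀ c : ℂ, ((strAway 𝒜 h) c).val = algebraMap ℂ (Localization.Away h) c := by
    intro c
    rw [IsScalarTower.algebraMap_apply ℂ A (Localization.Away h)]
    rfl
  have hFT : Algebra.FiniteType ℂ (Localization.Away h) := by
    have h1 : Algebra.FiniteType ℂ A :=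
      (inferInstance : Algebra.FiniteType ℂ (MvPolynomial (J ⊕ K) ℂ)).of_surjective pr.π pr.surj
    have h2 : Algebra.FiniteType A (Localization.Away h) :=
      IsLocalization.finiteType_of_monoid_fg (Submonoid.powers h) _
    exact Algebra.FiniteType.trans h1 h2
  exact smooth_of_retract (T := HomogeneousLocalization.Away 𝒜 h) (S := Localization.Away h)
    { toRingHom := algebraMap (HomogeneousLocalization.Away 𝒜 h) (Localization.Away h)
      commutes' := fun c => hcm c }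
    { toRingHom := ρ
      commutes' := fun c => by
        change ρ (algebraMap ℂ (Localization.Away h) c) = strAway 𝒜 h c
        rw [← hcm c, hρ1] }
    (fun z => hρ1 z) hfs hFT

end Pool.TVar.helper68
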